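import Pool.Agent.Y245.SC.Stm4

/-!
Job ES-FIN (project ES of helper245): isolated essential singularities are impossible.
-/

set_option autoImplicit false

open Complex MeasureTheory Metric Set Filter Topology ComplexConjugate

namespace Pool.Agent.Y441.ES

open Pool.Agent.Y245.SC

/-- the radius `N^(-9/16)` is at least `128/N` -/
lemma radius_ge {N : ℕ} (hN : 65536 ≤ N) : 128 / (N : ℝ) ≤ (N : ℝ) ^ (-(9 / 16 : ℝ)) := by
  have hN0 : (0 : ℝ) < N := by
    have : 0 < N := by omega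
    exact_mod_cast this
  have hN' : (65536 : ℝ) ≤ N := by exact_mod_cast hN
  have h1 : (N : ℝ) ^ (-(9 / 16 : ℝ)) = (N : ℝ) ^ (7 / 16 : ℝ) / N := by
    rw [show (-(9 / 16 : ℝ)) = 7 / 16 - 1 by norm_num, Real.rpow_sub_one hN0.ne']
  have h2 : (128 : ℝ) ≤ (N : ℝ) ^ (7 / 16 : ℝ) := by
    have h3 : (128 : ℝ) = (65536 : ℝ) ^ (7 / 16 : ℝ) := by
      rw [show (65536 : ℝ) = (2 : ℝ) ^ (16 : ℝ) by
        rw [show (16 : ℝ) = ((16 : ℕ) : ℝ) by norm_num, Real.rpow_natCast]; norm_num,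
        ← Real.rpow_mul (by norm_num)]
      rw [show (16 : ℝ) * (7 / 16) = ((7 : ℕ) : ℝ) by norm_num, Real.rpow_natCast]
      norm_num
    rw [h3]
    exact Real.rpow_le_rpow (by norm_num) hN' (by norm_num)
  rw [h1]
  exact div_le_div_of_nonneg_right h2 hN0.le

lemma eta_lt {N : ℕ} {η : ℝ} (hN : 65536 ≤ N)
    (hη : |η| ≤ Real.pi / N * (1 + (N : ℝ) ^ (-(1 / 4 : ℝ)))) : |η| ≤ 8 / (N : ℝ) := by
  have hN0 : (0 : ℝ) < N := by
    have : 0 < N := by omega
    exact_mod_cast this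
  have hN1 : (1 : ℝ) ≤ N := by
    have : 1 ≤ N := by omega
    exact_mod_cast this
  have h1 : (N : ℝ) ^ (-(1 / 4 : ℝ)) ≤ 1 := Real.rpow_le_one_of_one_le_of_nonpos hN1 (by norm_num)
  have h2 : (0 : ℝ) ≤ Real.pi / N := by positivity
  have h3 : Real.pi / N * (1 + (N : ℝ) ^ (-(1 / 4 : ℝ))) ≤ Real.pi / N * 2 :=
    mul_le_mul_of_nonneg_left (by linarith) h2
  have h4 : Real.pi / N * 2 ≤ 8 / N := by
    rw [div_mul_eq_mul_div]
    exact div_le_div_of_nonneg_right (by linarith [Real.pi_le_four]) hN0.le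
  linarith

lemma eta_mem {N : ℕ} {η : ℝ} (hN : 65536 ≤ N)
    (hη : |η| ≤ Real.pi / N * (1 + (N : ℝ) ^ (-(1 / 4 : ℝ)))) :
    (η * I : ℂ) ∈ ball (0 : ℂ) ((N : ℝ) ^ (-(9 / 16 : ℝ))) := by
  have hN0 : (0 : ℝ) < N := by
    have : 0 < N := by omega
    exact_mod_cast this
  rw [mem_ball_zero_iff, norm_mul, norm_I, mul_one, norm_real, Real.norm_eq_abs]
  have h1 := eta_lt hN hη
  have h2 := radius_ge hN
  have h3 : 8 / (N : ℝ) < 128 / N := div_lt_div_of_pos_right (by norm_num) hN0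
  linarith

lemma deriv_le {N : ℕ} {H : ℂ → ℂ} {η : ℝ} (hN : 65536 ≤ N)
    (hH : DifferentiableOn ℂ H (ball 0 ((N : ℝ) ^ (-(9 / 16 : ℝ)))))
    (hH1 : ∀ τ ∈ ball (0 : ℂ) ((N : ℝ) ^ (-(9 / 16 : ℝ))), ‖H τ‖ ≤ 1)
    (hη : |η| ≤ Real.pi / N * (1 + (N : ℝ) ^ (-(1 / 4 : ℝ)))) :
    ‖deriv H (η * I)‖ ≤ N / 2 := by
  have hN0 : (0 : ℝ) < N := by
    have : 0 < N := by omega
    exact_mod_cast this
  have h1 := eta_lt hN hη
  have h2 := radius_ge hN
  have hsub : closedBall (η * I : ℂ) (64 / N) ⊆ ball (0 : ℂ) ((N : ℝ) ^ (-(9 / 16 : ℝ))) := by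
    intro z hz
    rw [mem_closedBall, dist_eq_norm] at hz
    rw [mem_ball_zero_iff]
    have h3 : ‖z‖ ≤ ‖z - η * I‖ + ‖(η * I : ℂ)‖ := by
      have := norm_add_le (z - η * I) (η * I)
      rwa [sub_add_cancel] at this
    rw [norm_mul, norm_I, mul_one, norm_real, Real.norm_eq_abs] at h3
    have h4 : 64 / (N : ℝ) + 8 / N < 128 / N := by
      rw [← add_div]
      exact div_lt_div_of_pos_right (by norm_num) hN0
    linarith
  have h3 := Complex.norm_deriv_le_of_forall_mem_sphere_norm_le (c := (η * I : ℂ))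
    (R := 64 / N) (C := 1) (f := H) (by positivity) (hH.diffContOnCl_ball hsub)
    (fun z hz => hH1 z (hsub (sphere_subset_closedBall hz)))
  refine h3.trans ?_
  rw [one_div_div]
  linarith

/-- a circle integral, parametrised from another point -/
lemma circle_param {F : ℂ → ℂ} {c zs : ℂ} (hzs : zs ≠ 0)
    (h : ∮ ω in C(c, 1 / ‖zs‖), F ω = 0) :
    ∫ θ in (-Real.pi)..Real.pi, I * exp (θ * I) / zs * F (c + exp (θ * I) / zs) = 0 := by
  set R : ℝ := 1 / ‖zs‖ with hR
  have hn : (‖zs‖ : ℂ) ≠ 0 := by exact_mod_cast (norm_ne_zero_iff.mpr hzs)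
  set G : ℝ → ℂ := fun θ => deriv (circleMap c R) θ • F (circleMap c R θ) with hG
  have hper : Function.Periodic G (2 * Real.pi) := by
    intro θ
    simp only [hG, deriv_circleMap, periodic_circleMap c R θ, periodic_circleMap 0 R θ]
  have hkey : ∀ θ : ℝ, (R : ℂ) * exp ((θ - zs.arg : ℝ) * I) = exp (θ * I) / zs := by
    intro θ
    have h1 := Complex.norm_mul_exp_arg_mul_I zs
    have h2 : exp ((θ - zs.arg : ℝ) * I) = exp (θ * I) / exp (zs.arg * I) := by
      rw [← Complex.exp_sub]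
      congr 1
      push_cast
      ring
    rw [h2, hR]
    have h3 : exp (θ * I) / zs = exp (θ * I) / (‖zs‖ * exp (zs.arg * I)) := by rw [h1]
    rw [h3]
    push_cast
    field_simp
  have h1 : ∀ θ : ℝ, G (θ - zs.arg) = I * exp (θ * I) / zs * F (c + exp (θ * I) / zs) := by
    intro θ
    simp only [hG, deriv_circleMap, circleMap, smul_eq_mul, zero_add, hkey]
    ring
  have h2 : ∫ θ in (-Real.pi)..Real.pi, I * exp (θ * I) / zs * F (c + exp (θ * I) / zs) =
      ∫ θ in (-Real.pi)..Real.pi, G (θ - zs.arg) := by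
    refine intervalIntegral.integral_congr (fun θ _ => ?_)
    exact (h1 θ).symm
  rw [h2, intervalIntegral.integral_comp_sub_right G]
  have h3 : Real.pi - zs.arg = (-Real.pi - zs.arg) + 2 * Real.pi := by ring
  rw [h3, hper.intervalIntegral_add_eq (-Real.pi - zs.arg) 0, zero_add]
  exact h

/-- the data at one radius -/
lemma step {a ρ : ℝ} {c : ℂ} {x X : ℂ → ℂ} (ha : 0 < a) (hρ : 0 < ρ)
    (hx : DifferentiableOn ℂ x (ball c ρ)) (hX : DifferentiableOn ℂ X (ball c ρ \ {c}))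
    (hI : ∀ α β : ℂ, α * β = -(a : ℂ) →
      ∮ ω in C(c, ρ / 2), exp (α * x ω + β * X ω) * deriv x ω = 0)
    {N : ℕ} {r : ℝ} {ζm : ℂ} {H : ℂ → ℂ} {η A : ℝ} (hr : 2 / ρ ≤ r)
    (hW : WV (fun ζ => X (c + 1 / ζ)) N r ζm H)
    (hA : 0 < A)
    (hA2 : (A : ℂ) ^ 2 = -(a * deriv x (c + 1 / (ζm * exp (η * I))) *
      (fun ζ => X (c + 1 / ζ)) (ζm * exp (η * I)) *
      (N + deriv H (η * I)) / (ζm * exp (η * I)))) :
    ContinuousOn (fun θ : ℝ => PP c x (fun ζ => X (c + 1 / ζ)) N H ζm η θ)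
      (Icc (-Real.pi) Real.pi) ∧
    ContinuousOn (fun θ : ℝ => deriv x (c + exp (θ * I) / (ζm * exp (η * I))) * exp (θ * I))
      (Icc (-Real.pi) Real.pi) ∧
    ∫ θ in (-Real.pi)..Real.pi, exp (A * PP c x (fun ζ => X (c + 1 / ζ)) N H ζm η θ) *
      (deriv x (c + exp (θ * I) / (ζm * exp (η * I))) * exp (θ * I)) = 0 := by
  obtain ⟨hr0, hζr, -⟩ := hW
  set zs : ℂ := ζm * exp (η * I) with hzs
  have hnorm : ‖zs‖ = r := by
    rw [hzs, norm_mul, norm_exp_ofReal_mul_I, mul_one, hζr]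
  have hzs0 : zs ≠ 0 := by
    intro h0
    rw [h0, norm_zero] at hnorm
    linarith
  have hAne : (A : ℂ) ^ 2 ≠ 0 := pow_ne_zero 2 (by exact_mod_cast hA.ne')
  set xd : ℂ := deriv x (c + 1 / zs) with hxd
  set fs : ℂ := X (c + 1 / zs) with hfs
  set Nc : ℂ := N + deriv H (η * I) with hNc
  have hA3 : (A : ℂ) ^ 2 = -(a * xd * fs * Nc / zs) := hA2
  have hxd0 : xd ≠ 0 := by
    intro h0; rw [h0] at hA3; apply hAne; rw [hA3]; ring
  have hfs0 : fs ≠ 0 := by
    intro h0; rw [h0] at hA3; apply hAne; rw [hA3]; ring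
  have hNc0 : Nc ≠ 0 := by
    intro h0; rw [h0] at hA3; apply hAne; rw [hA3]; ring
  have hAc : (A : ℂ) ≠ 0 := by exact_mod_cast hA.ne'
  have ha' : (a : ℂ) ≠ 0 := by exact_mod_cast ha.ne'
  -- points on the circle
  have h1r : 1 / r ≤ ρ / 2 := by
    rw [div_le_iff₀ hr0]
    have := mul_le_mul_of_nonneg_left hr (by positivity : 0 ≤ ρ / 2)
    have e : ρ / 2 * (2 / ρ) = 1 := by field_simp
    linarith
  have hpt : ∀ θ : ℝ, ‖exp (θ * I) / zs‖ = 1 / r := by
    intro θ
    rw [norm_div, norm_exp_ofReal_mul_I, hnorm]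
  have hpos : 0 < 1 / r := by positivity
  have hmem : ∀ θ : ℝ, c + exp (θ * I) / zs ∈ ball c ρ := by
    intro θ
    rw [mem_ball, dist_eq_norm, add_sub_cancel_left, hpt]
    linarith
  have hmem' : ∀ θ : ℝ, c + exp (θ * I) / zs ∈ ball c ρ \ {c} := by
    intro θ
    refine ⟨hmem θ, ?_⟩
    rw [mem_singleton_iff]
    intro h0
    have h2 : exp (θ * I) / zs = 0 := by
      have := congrArg (fun z => z - c) h0
      simpa using this
    have := hpt θ
    rw [h2, norm_zero] at this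
    linarith
  have hcont0 : Continuous (fun θ : ℝ => c + exp (θ * I) / zs) := by fun_prop
  have hopen : IsOpen (ball c ρ \ {c}) := isOpen_ball.sdiff isClosed_singleton
  have hcx : Continuous (fun θ : ℝ => x (c + exp (θ * I) / zs)) := by
    rw [← continuousOn_univ]
    exact hx.continuousOn.comp hcont0.continuousOn (fun θ _ => hmem θ)
  have hcX : Continuous (fun θ : ℝ => X (c + exp (θ * I) / zs)) := by
    rw [← continuousOn_univ]
    exact hX.continuousOn.comp hcont0.continuousOn (fun θ _ => hmem' θ)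
  have hdx : DifferentiableOn ℂ (deriv x) (ball c ρ) := hx.deriv isOpen_ball
  have hcd : Continuous (fun θ : ℝ => deriv x (c + exp (θ * I) / zs)) := by
    rw [← continuousOn_univ]
    exact hdx.continuousOn.comp hcont0.continuousOn (fun θ _ => hmem θ)
  have hfe : ∀ θ : ℝ, c + 1 / (zs * exp (-(θ * I))) = c + exp (θ * I) / zs := by
    intro θ
    rw [Complex.exp_neg]
    have := Complex.exp_ne_zero (θ * I)
    field_simp
  have hPP : ∀ θ : ℝ, PP c x (fun ζ => X (c + 1 / ζ)) N H ζm η θ =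
      (x (c + exp (θ * I) / zs) - x (c + 1 / zs)) * zs / xd +
        (X (c + exp (θ * I) / zs) / fs - 1) / Nc := by
    intro θ
    unfold PP
    simp only [← hzs]
    rw [hfe θ]
  refine ⟨?_, (by fun_prop : Continuous _).continuousOn, ?_⟩
  · have : Continuous (fun θ : ℝ => PP c x (fun ζ => X (c + 1 / ζ)) N H ζm η θ) := by
      simp only [hPP]
      exact (((hcx.sub continuous_const).mul continuous_const).div_const xd).add
        (((hcX.div_const fs).sub continuous_const).div_const Nc)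
    exact this.continuousOn
  · -- the integral
    set α : ℂ := A * zs / xd with hα
    set β : ℂ := -a * xd / (A * zs) with hβ
    have hαβ : α * β = -(a : ℂ) := by
      rw [hα, hβ]
      field_simp
    have hβf : β * fs = A / Nc := by
      rw [hβ]
      have : (A : ℂ) ^ 2 * zs = -(a * xd * fs * Nc) := by
        rw [hA3]; field_simp
      field_simp
      linear_combination (-1 : ℂ) * this
    have h0 := hI α β hαβ
    have hF : ∀ z ∈ ball c ρ \ {c}, DifferentiableAt ℂ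
        (fun ω => exp (α * x ω + β * X ω) * deriv x ω) z := by
      intro z hz
      have d1 := (hx z hz.1).differentiableAt (isOpen_ball.mem_nhds hz.1)
      have d2 := (hX z hz).differentiableAt (hopen.mem_nhds hz)
      have d3 := (hdx z hz.1).differentiableAt (isOpen_ball.mem_nhds hz.1)
      exact (((d1.const_mul α).add (d2.const_mul β)).cexp).mul d3
    have hsub : ∀ z ∈ closedBall c (ρ / 2) \ ball c (1 / r), z ∈ ball c ρ \ {c} := by
      intro z hz
      refine ⟨?_, ?_⟩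
      · have := hz.1
        rw [mem_closedBall] at this
        rw [mem_ball]
        linarith
      · rw [mem_singleton_iff]
        rintro rfl
        exact hz.2 (mem_ball_self hpos)
    have h1 := Complex.circleIntegral_eq_of_differentiable_on_annulus_off_countable
      (c := c) (r := 1 / r) (R := ρ / 2) hpos h1r
      (f := fun ω => exp (α * x ω + β * X ω) * deriv x ω) (s := ∅) countable_empty
      (fun z hz => (hF z (hsub z hz)).continuousAt.continuousWithinAt)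
      (fun z hz => hF z (hsub z ⟨ball_subset_closedBall hz.1.1,
        fun h => hz.1.2 (ball_subset_closedBall h)⟩))
    rw [h0, ← hnorm] at h1
    have h2 := circle_param hzs0 h1.symm
    have h3 : ∀ θ : ℝ, I * exp (θ * I) / zs *
        (exp (α * x (c + exp (θ * I) / zs) + β * X (c + exp (θ * I) / zs)) *
          deriv x (c + exp (θ * I) / zs)) =
        (I / zs * exp (α * x (c + 1 / zs) + A / Nc)) *
        (exp (A * PP c x (fun ζ => X (c + 1 / ζ)) N H ζm η θ) *
          (deriv x (c + exp (θ * I) / zs) * exp (θ * I))) := by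
      intro θ
      have e : α * x (c + exp (θ * I) / zs) + β * X (c + exp (θ * I) / zs) =
          (α * x (c + 1 / zs) + A / Nc) + A * PP c x (fun ζ => X (c + 1 / ζ)) N H ζm η θ := by
        rw [hPP θ]
        have e1 : X (c + exp (θ * I) / zs) = fs * (X (c + exp (θ * I) / zs) / fs) := by
          field_simp
        have e2 : β * X (c + exp (θ * I) / zs) = A / Nc * (X (c + exp (θ * I) / zs) / fs) := by
          rw [← hβf]
          field_simp
        rw [e2, hα]
        field_simp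
        ring
      rw [e, Complex.exp_add]
      ring
    simp only [h3] at h2
    rw [intervalIntegral.integral_const_mul] at h2
    rcases mul_eq_zero.mp h2 with h4 | h4
    · exfalso
      rcases mul_eq_zero.mp h4 with h5 | h5
      · rcases div_eq_zero_iff.mp h5 with h6 | h6
        · exact I_ne_zero h6
        · exact hzs0 h6
      · exact Complex.exp_ne_zero _ h5
    · exact h4

/-- `A` is large -/
lemma A_ge {a δ : ℝ} {N : ℕ} {r : ℝ} {xd : ℂ} {X : ℂ → ℂ} {c ζm : ℂ} {H : ℂ → ℂ} {η A : ℝ}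
    (ha : 0 < a) (hN : 65536 ≤ N) (hr : 1 ≤ r)
    (hW : WV (fun ζ => X (c + 1 / ζ)) N r ζm H)
    (hbig : (N : ℝ) ^ 9 * r ^ 9 ≤ ‖X (c + 1 / ζm)‖)
    (hη : |η| ≤ Real.pi / N * (1 + (N : ℝ) ^ (-(1 / 4 : ℝ)))) (hA : 0 < A)
    (hδ : 0 < δ) (hxd : δ ≤ ‖xd‖) (hNδ : 6 / (a * δ) ≤ N)
    (hA2 : (A : ℂ) ^ 2 = -(a * xd * (fun ζ => X (c + 1 / ζ)) (ζm * exp (η * I)) *
      (N + deriv H (η * I)) / (ζm * exp (η * I)))) : (N : ℝ) ^ 4 ≤ A := by
  obtain ⟨hr0, hζr, hf0, -, hH, -, hH1, hHf⟩ := hW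
  have hN0 : (0 : ℝ) < N := by
    have : 0 < N := by omega
    exact_mod_cast this
  have hN1 : (65536 : ℝ) ≤ N := by exact_mod_cast hN
  have h1 := hHf _ (eta_mem hN hη)
  simp only at h1
  have h2 : ‖exp (N * (η * I) + H (η * I))‖ ≥ 1 / 3 := by
    rw [Complex.norm_exp]
    have h3 : (N * (η * I) + H (η * I) : ℂ).re = (H (η * I)).re := by simp
    rw [h3]
    have h4 : -1 ≤ (H (η * I)).re := by
      have := (abs_le.mp ((Complex.abs_re_le_norm _).trans (hH1 _ (eta_mem hN hη)))).1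
      exact this
    have h5 : Real.exp (-1) ≤ Real.exp ((H (η * I)).re) := Real.exp_le_exp.mpr h4
    have h6 : (1 : ℝ) / 3 ≤ Real.exp (-1) := by
      rw [Real.exp_neg, one_div]
      apply inv_anti₀ (Real.exp_pos 1)
      linarith [Real.exp_one_lt_d9]
    linarith
  have h3 : ‖X (c + 1 / (ζm * exp (η * I)))‖ ≥ (N : ℝ) ^ 9 * r ^ 9 * (1 / 3) := by
    rw [h1, norm_mul]
    exact mul_le_mul hbig h2 (by norm_num) (norm_nonneg _)
  have h4 : (N : ℝ) / 2 ≤ ‖(N + deriv H (η * I) : ℂ)‖ := by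
    have h5 := deriv_le hN hH hH1 hη
    have h6 := norm_sub_le_norm_add (N : ℂ) (deriv H (η * I))
    rw [Complex.norm_natCast] at h6
    linarith
  have h5 : A ^ 2 = a * ‖xd‖ * ‖X (c + 1 / (ζm * exp (η * I)))‖ *
      ‖(N + deriv H (η * I) : ℂ)‖ / r := by
    have h6 := congrArg norm hA2
    rw [norm_pow, norm_neg, norm_div, norm_mul, norm_mul, norm_mul, norm_mul (ζm),
      norm_exp_ofReal_mul_I, mul_one, hζr, norm_real, norm_real, Real.norm_of_nonneg hA.le,
      Real.norm_of_nonneg ha.le] at h6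
    exact h6
  have h6 : (N : ℝ) ^ 8 ≤ A ^ 2 := by
    rw [h5, le_div_iff₀ hr0]
    have h7 : a * δ * ((N : ℝ) ^ 9 * r ^ 9 * (1 / 3)) * (N / 2) ≤
        a * ‖xd‖ * ‖X (c + 1 / (ζm * exp (η * I)))‖ * ‖(N + deriv H (η * I) : ℂ)‖ := by
      gcongr
    refine le_trans ?_ h7
    have h8 : 6 ≤ N * (a * δ) := by
      rwa [div_le_iff₀ (by positivity)] at hNδ
    have h9 : r ≤ r ^ 9 := by
      calc r = r ^ 1 := (pow_one r).symm
        _ ≤ r ^ 9 := pow_le_pow_right₀ hr (by norm_num)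
    have h10 : (1 : ℝ) ≤ N := by linarith
    calc (N : ℝ) ^ 8 * r ≤ (N : ℝ) ^ 8 * r ^ 9 := by gcongr
      _ ≤ (N : ℝ) ^ 8 * r ^ 9 * (N * (N * (a * δ) / 6)) := by
          apply le_mul_of_one_le_right (by positivity)
          have : (1 : ℝ) ≤ N * (a * δ) / 6 := by linarith
          nlinarith
      _ = a * δ * ((N : ℝ) ^ 9 * r ^ 9 * (1 / 3)) * (N / 2) := by ring
  have h7 : ((N : ℝ) ^ 4) ^ 2 ≤ A ^ 2 := by
    calc ((N : ℝ) ^ 4) ^ 2 = (N : ℝ) ^ 8 := by ring
      _ ≤ A ^ 2 := h6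
  exact le_of_sq_le_sq h7 hA.le

theorem essf : S_ESSF := by
  intro hLAUR hNORM hWV hPH hIN hLAPE a ρ c x X ha hρ hx hxc hE hI
  obtain ⟨N1, hph⟩ := hPH c ρ a x hρ ha hx hxc
  obtain ⟨N2, C1, hin⟩ := hIN c ρ x hρ hx hxc
  have hdx : DifferentiableOn ℂ (deriv x) (ball c ρ) := hx.deriv isOpen_ball
  have hcc : c ∈ ball c ρ := mem_ball_self hρ
  have hcont : ContinuousAt (deriv x) c :=
    ((hdx c hcc).differentiableAt (isOpen_ball.mem_nhds hcc)).continuousAt
  set δ : ℝ := ‖deriv x c‖ / 2 with hδ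
  have hδ0 : 0 < δ := by have := norm_pos_iff.mpr hxc; positivity
  obtain ⟨ε, hε, hε'⟩ := Metric.continuousAt_iff.mp hcont δ hδ0
  -- bound of the derivative
  have hcpt : IsCompact (closedBall c (ρ / 2)) := isCompact_closedBall c (ρ / 2)
  have hsub : closedBall c (ρ / 2) ⊆ ball c ρ := closedBall_subset_ball (by linarith)
  obtain ⟨C2, hC2⟩ := hcpt.exists_bound_of_continuousOn (hdx.continuousOn.mono hsub)
  obtain ⟨K0, hK0⟩ := exists_nat_ge (max (max (2 / ρ) (6 / (a * δ))) (2 / ε))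
  have hK1 : 2 / ρ ≤ K0 := (le_max_left _ _).trans ((le_max_left _ _).trans hK0)
  have hK2 : 6 / (a * δ) ≤ K0 := (le_max_right _ _).trans ((le_max_left _ _).trans hK0)
  have hK3 : 2 / ε ≤ K0 := (le_max_right _ _).trans hK0
  have hseq : ∀ k : ℕ, ∃ (N : ℕ) (r : ℝ) (ζm : ℂ) (H : ℂ → ℂ) (η A : ℝ),
      k + N1 + N2 + 65536 + K0 ≤ N ∧ ((k + N1 + N2 + 65536 + K0 : ℕ) : ℝ) ≤ r ∧
      WV (fun ζ => X (c + 1 / ζ)) N r ζm H ∧ (N : ℝ) ^ 9 * r ^ 9 ≤ ‖X (c + 1 / ζm)‖ ∧
      |η| ≤ Real.pi / N * (1 + (N : ℝ) ^ (-(1 / 4 : ℝ))) ∧ 0 < A ∧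
      (A : ℂ) ^ 2 = -(a * deriv x (c + 1 / (ζm * exp (η * I))) *
        (fun ζ => X (c + 1 / ζ)) (ζm * exp (η * I)) *
        (N + deriv H (η * I)) / (ζm * exp (η * I))) := by
    intro k
    obtain ⟨N, r, ζm, H, h1, h2, h3, h4⟩ := hWV hLAUR hNORM c ρ X hρ hE 9
      (k + N1 + N2 + 65536 + K0)
    have h5 : (N1 : ℝ) ≤ r := by
      refine le_trans ?_ h2
      exact_mod_cast (by omega : N1 ≤ k + N1 + N2 + 65536 + K0)
    obtain ⟨η, A, h6, h7, h8⟩ := hph _ N r ζm H (by omega) h5 h3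
    exact ⟨N, r, ζm, H, η, A, h1, h2, h3, h4, h6, h7, h8⟩
  choose N r ζm H η A hN hr hW hbig hη hA hA2 using hseq
  have hrK : ∀ k, (K0 : ℝ) ≤ r k := by
    intro k
    refine le_trans ?_ (hr k)
    exact_mod_cast (by omega : K0 ≤ k + N1 + N2 + 65536 + K0)
  have hrk : ∀ k : ℕ, (k : ℝ) ≤ r k := by
    intro k
    refine le_trans ?_ (hr k)
    exact_mod_cast (by omega : k ≤ k + N1 + N2 + 65536 + K0)
  have hr1 : ∀ k, 1 ≤ r k := by
    intro k
    refine le_trans ?_ (hr k)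
    exact_mod_cast (by omega : 1 ≤ k + N1 + N2 + 65536 + K0)
  have hrN2 : ∀ k, (N2 : ℝ) ≤ r k := by
    intro k
    refine le_trans ?_ (hr k)
    exact_mod_cast (by omega : N2 ≤ k + N1 + N2 + 65536 + K0)
  have hnz : ∀ k, ‖ζm k * exp (η k * I)‖ = r k := by
    intro k
    rw [norm_mul, norm_exp_ofReal_mul_I, mul_one, (hW k).2.1]
  have hxd : ∀ k, δ ≤ ‖deriv x (c + 1 / (ζm k * exp (η k * I)))‖ := by
    intro k
    have h1 : dist (c + 1 / (ζm k * exp (η k * I))) c < ε := by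
      rw [dist_eq_norm, add_sub_cancel_left, norm_div, norm_one, hnz]
      have h2 : 2 / ε ≤ r k := hK3.trans (hrK k)
      have h3 : 0 < r k := by linarith [hr1 k]
      rw [div_lt_iff₀ h3]
      rw [div_le_iff₀ hε] at h2
      linarith
    have h2 := hε' h1
    rw [dist_eq_norm] at h2
    have h3 := norm_sub_norm_le (deriv x c) (deriv x (c + 1 / (ζm k * exp (η k * I))))
    rw [norm_sub_rev] at h3
    have h4 : ‖deriv x c‖ = 2 * δ := by rw [hδ]; ring
    linarith
  have hA4 : ∀ k, (N k : ℝ) ^ 4 ≤ A k := fun k => A_ge ha (by have := hN k; omega) (hr1 k) (hW k)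
    (hbig k) (hη k) (hA k) hδ0 (hxd k) (by
      refine hK2.trans ?_
      exact_mod_cast (by have := hN k; omega : K0 ≤ N k)) (hA2 k)
  have hstep := fun k => step ha hρ hx hE.1 hI (hK1.trans (hrK k)) (hW k) (hA k) (hA2 k)
  have hNt : Tendsto N atTop atTop := tendsto_atTop_mono (fun k => by have := hN k; omega :
    ∀ k, k ≤ N k) tendsto_id
  have hfinal := hLAPE A N (fun k θ => PP c x (fun ζ => X (c + 1 / ζ)) (N k) (H k) (ζm k) (η k) θ)
    (fun k θ => deriv x (c + exp (θ * I) / (ζm k * exp (η k * I))) * exp (θ * I)) (max C1 C2)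
    (deriv x c) hxc hNt hA4 (fun k => (hstep k).1) (fun k => (hstep k).2.1)
    (fun k => (hin _ (N k) (r k) (ζm k) (H k) (η k) (by have := hN k; omega) (hrN2 k) (hW k)
      (hη k)).1)
    (fun k => (hin _ (N k) (r k) (ζm k) (H k) (η k) (by have := hN k; omega) (hrN2 k) (hW k)
      (hη k)).2.1)
    (fun k θ hθ => ((hin _ (N k) (r k) (ζm k) (H k) (η k) (by have := hN k; omega) (hrN2 k) (hW k)
      (hη k)).2.2 θ hθ).trans (mul_le_mul_of_nonneg_right (le_max_left _ _) (by positivity)))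
    ?_ ?_
  · obtain ⟨k, hk⟩ := hfinal.exists
    exact hk (hstep k).2.2
  · intro k θ _
    rw [norm_mul, norm_exp_ofReal_mul_I, mul_one]
    refine (hC2 _ ?_).trans (le_max_right _ _)
    rw [mem_closedBall, dist_eq_norm, add_sub_cancel_left, norm_div, norm_exp_ofReal_mul_I, hnz]
    have h2 : 2 / ρ ≤ r k := hK1.trans (hrK k)
    have h3 : 0 < r k := by linarith [hr1 k]
    rw [div_le_iff₀ h3]
    rw [div_le_iff₀ hρ] at h2
    linarith
  · intro u
    have hrt : Tendsto r atTop atTop := tendsto_atTop_mono hrk tendsto_natCast_atTop_atTop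
    have hAN : Tendsto (fun k => A k * N k) atTop atTop := by
      refine tendsto_atTop_mono (fun k => ?_) tendsto_natCast_atTop_atTop
      have h1 : (1 : ℝ) ≤ N k := by
        exact_mod_cast (by have := hN k; omega : 1 ≤ N k)
      have h2 : (k : ℝ) ≤ N k := by
        exact_mod_cast (by have := hN k; omega : k ≤ N k)
      have h3 : (1 : ℝ) ≤ A k := (one_le_pow₀ h1).trans (hA4 k)
      nlinarith
    have hθ : Tendsto (fun k => u / √(A k * N k)) atTop (𝓝 0) :=
      (Real.tendsto_sqrt_atTop.comp hAN).const_div_atTop u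
    have hexp : Tendsto (fun k => exp (((u / √(A k * N k) : ℝ) : ℂ) * I)) atTop (𝓝 1) := by
      have h1 : Continuous (fun t : ℝ => exp ((t : ℂ) * I)) := by fun_prop
      have h2 := (h1.tendsto 0).comp hθ
      have h3 : exp (((0 : ℝ) : ℂ) * I) = 1 := by simp
      rw [h3] at h2
      exact h2
    have hpt : Tendsto (fun k => c + exp (((u / √(A k * N k) : ℝ) : ℂ) * I) /
        (ζm k * exp (η k * I))) atTop (𝓝 c) := by
      rw [tendsto_iff_norm_sub_tendsto_zero]
      have h1 : ∀ k, ‖c + exp (((u / √(A k * N k) : ℝ) : ℂ) * I) / (ζm k * exp (η k * I)) - c‖ =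
          1 / r k := by
        intro k
        rw [add_sub_cancel_left, norm_div, norm_exp_ofReal_mul_I, hnz]
      simp only [h1]
      exact hrt.const_div_atTop 1
    have := (hcont.tendsto.comp hpt).mul hexp
    rw [mul_one] at this
    exact this

end Pool.Agent.Y441.ES
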